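import Pool.Agent.Run7.h645.GV.Two

/-!
# Automorphisms of the lattice of the group varieties act on the exponents

`FILat` is the set of the fully invariant subgroups of the free group of countably infinite rank, ordered by
inclusion; it is dual to the lattice of the group varieties. We show that every order automorphism `e` of `FILat`
comes with an automorphism `σ` of the multiplicative monoid of the natural numbers (so `σ` is given by a
permutation of the prime numbers) such that `x ^ n` is a law of the variety `U` if and only if `x ^ (σ n)` is a law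
of the image of `U`; the abelian groups of exponent dividing `n` go to those of exponent dividing `σ n`, the
Burnside variety of exponent `n` to the one of exponent `σ n`, and `σ 2 = 2`. In particular the variety of the
abelian groups, and for every `k` the variety of the (abelian) groups of exponent dividing `2 ^ k`, are fixed.
-/

set_option autoImplicit false

namespace Pool.Agent.Results.MP_4c5e24_al.ActionOnExponents

open Pool.Agent.Run7.h645.GV

/-- The laws of the abelian groups `G` with `g ^ n = 1` for all `g` (for `n = 0`: of all abelian groups). -/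
def Ab (n : ℕ) : FILat :=
  ⟨{ carrier := {w | ∀ (G : Type) [CommGroup G], (∀ g : G, g ^ n = 1) → ∀ f : FreeGroup ℕ →* G, f w = 1}
     mul_mem' := fun {a b} ha hb G _ h f => by rw [map_mul, ha G h f, hb G h f, one_mul]
     one_mem' := fun _ _ _ f => map_one f
     inv_mem' := fun {a} ha G _ h f => by rw [map_inv, ha G h f, inv_one] }, by
    intro φ
    rintro _ ⟨w, hw, rfl⟩ G _ h f
    exact hw G h (f.comp φ)⟩

theorem ab_eq (n : ℕ) : Ab n = W n := by
  have h1 : Ab n = W (ex (Ab n)) := eq_W fun a b G _ hG f => by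
    rw [map_mul, map_mul, map_mul, map_inv, map_inv, mul_comm (f a) (f b)]
    group
  have h2 : ex (Ab n) ∣ n := by
    rw [ex_dvd_nat]
    intro G _ hG f
    rw [map_pow, hG]
  have h3 : Ab n ≤ W n := fun w hw => mem_laws.mpr fun f => hw _ (fun g => by
    apply Multiplicative.toAdd.injective
    rw [toAdd_pow, toAdd_one, nsmul_eq_mul, ZMod.natCast_self, zero_mul]) f
  have h4 := Nat.dvd_antisymm h2 (le_W.mp h3)
  rw [h4] at h1
  exact h1

theorem pow_law {U : FILat} {n : ℕ} : (∀ w : FreeGroup ℕ, w ^ n ∈ U.1) ↔ ex U ∣ n :=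
  ⟨fun h => ex_dvd_nat.mpr (h x0), fun h w => pow_mem h w⟩

/-- Every automorphism of the lattice of the group varieties acts on the exponents by an automorphism of the
multiplicative monoid of the natural numbers which fixes two. -/
theorem result (e : {H : Subgroup (FreeGroup ℕ) // ∀ φ : FreeGroup ℕ →* FreeGroup ℕ, H.map φ ≤ H} ≃o
        {H : Subgroup (FreeGroup ℕ) // ∀ φ : FreeGroup ℕ →* FreeGroup ℕ, H.map φ ≤ H}) :
    ∃ σ : ℕ ≃* ℕ, σ 0 = 0 ∧ σ 2 = 2 ∧ (∀ p : ℕ, (σ p).Prime ↔ p.Prime) ∧
      (∀ (U : {H : Subgroup (FreeGroup ℕ) // ∀ φ : FreeGroup ℕ →* FreeGroup ℕ, H.map φ ≤ H}) (n : ℕ),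
        (∀ w : FreeGroup ℕ, w ^ n ∈ U.1) ↔ (∀ w : FreeGroup ℕ, w ^ σ n ∈ (e U).1)) ∧
      (∀ n : ℕ, e (Ab n) = Ab (σ n)) ∧ (∀ n : ℕ, e (B n) = B (σ n)) ∧
      e (Ab 0) = Ab 0 ∧ ∀ k : ℕ, e (Ab (2 ^ k)) = Ab (2 ^ k) ∧ e (B (2 ^ k)) = B (2 ^ k) := by
  have h2 : ∀ k : ℕ, sg e (2 ^ k) = 2 ^ k := fun k => by
    rw [sg_prime_pow e Nat.prime_two, sg_two]
  refine ⟨act e, sg_zero e, sg_two e, ?_, ?_, ?_, map_B e, ?_, fun k => ⟨?_, ?_⟩⟩
  · intro p
    refine ⟨fun h => ?_, sg_prime e⟩
    have h1 := sg_prime e.symm h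
    rwa [show act e p = sg e p from rfl, sg_symm'] at h1
  · intro U n
    rw [pow_law, pow_law, ex_map]
    exact (sg_dvd e).symm
  · intro n
    rw [ab_eq, ab_eq]
    exact map_W e n
  · rw [ab_eq]
    exact map_W_zero e
  · rw [ab_eq, map_W, h2]
  · rw [map_B, h2]

end Pool.Agent.Results.MP_4c5e24_al.ActionOnExponents
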